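import Mathlib
import Pool.Agent.Helper33_dom.Main

/-!
# All Tate classes on products of abelian varieties over finite fields with dominating slopes

Let `q = p ^ a`, and let `π i` be finitely many Weil `q`-numbers in CM fields `K i`, each of which
has dominating slopes (the new case), or is of pair-transitive type, or of flip type; embeddings of
`K i` and `K j`, for different `i` and `j`, are cross flipped: some automorphism of the complex
numbers fixes one and conjugates the other.

Dominating slopes: let `w τ = 2 v (τ (π i)) - a` be the normalised valuations, `τ` running through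
the embeddings of `K i` in the algebraic closure of the `p`-adic numbers. There is `τ₀` with
`w τ₀ ≠ 0` such that the sum of all `|w τ|` is at most `4 |w τ₀|`. There is no other condition: the
degree and the Galois group of `K i` are arbitrary. Examples of simple abelian varieties with
commutative endomorphism algebra: the slopes `0` and `1` once and `1/2` otherwise (K3 type);
`p`-rank two and all other slopes `1/2`; the slopes `0` and `1` once, `r / (2 r + 1)` and
`(r + 1) / (2 r + 1)` with multiplicity `2 r + 1`, and all other slopes `1/2`.

Let `A` be any abelian variety isogenous to a product of powers of the simple abelian varieties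
over the field with `q` elements which belong to the `π i`; `V` is its first cohomology
(coefficients extended to an algebraically closed field) and `Φ` the Frobenius, so that the
cohomology of `A` is the exterior algebra on `V`. The theorem describes ALL the Tate classes of `A`
over the algebraic closure of the ground field: a class of degree `2 m` is a Tate class over some
extension if and only if it is a polynomial in

* Tate classes of degree two over the ground field (classes of divisors by the theorem of Tate), and
* norm classes: wedge products of eigenvectors of `Φ`, one with the eigenvalue `σ (π i)` for each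
  embedding `σ` of `K i` which extends a given embedding of a subfield `E` of `K i`; here `E` is
  different from `K i`, not totally real, and such that for every embedding of `E` in the algebraic
  closure of the `p`-adic numbers the sum of the `w τ` over its extensions `τ` to `K i` is zero
  (the square of the norm of `π i` to `E` is a power of `p` times a root of unity).

So the Tate conjecture for all the powers of these abelian varieties holds if there is no such `E`,
and in general it is reduced to the algebraicity of the norm classes (which generalise the classes
of Weil, where `E` is an imaginary quadratic field).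
-/

set_option autoImplicit false

namespace Pool.Agent.Results.MP_950c68_ag.DominantStructure

open NumberField Pool.Agent.H194R3.Tate Pool.Agent.Helper33Dom

theorem result (p : ℕ) [Fact p.Prime] (a : ℕ) {I : Type} [Finite I] (K : I → Type)
    [∀ i, Field (K i)] [∀ i, NumberField (K i)] [∀ i, IsCMField (K i)]
    (π : ∀ i, K i) (hint : ∀ i, IsIntegral ℤ (π i))
    (hweil : ∀ i, ∀ φ : K i →+* ℂ, ‖φ (π i)‖ ^ 2 = (p : ℝ) ^ a)
    (hπ : ∀ i, DominantSlopes p a (π i) ∨ PairTransitiveType (π i) ∨ FlipType p a (π i))
    (hcross : ∀ i j, i ≠ j → ∀ (φ : K i →+* ℂ) (ψ : K j →+* ℂ), CrossFlipped φ ψ)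
    {Ω : Type*} [Field Ω] [IsAlgClosed Ω] [CharZero Ω]
    {V : Type*} [AddCommGroup V] [Module Ω V] (Φ : V →ₗ[Ω] V)
    (hΦ : Submodule.span Ω {v : V | ∃ i, ∃ σ : K i →+* Ω, Φ v = σ (π i) • v} = ⊤)
    (m : ℕ) (x : ExteriorAlgebra Ω V) (hx : x ∈ ⋀[Ω]^(2 * m) V) :
    (∃ s : ℕ, 0 < s ∧ ExteriorAlgebra.map (Φ ^ s) x = (((p : Ω) ^ a) ^ m) ^ s • x) ↔
      x ∈ Algebra.adjoin Ω
        ({y : ExteriorAlgebra Ω V | y ∈ ⋀[Ω]^2 V ∧ ExteriorAlgebra.map Φ y = (p : Ω) ^ a • y} ∪
          {y | ∃ i, ∃ E : Subfield (K i), NormSub p a (π i) E ∧ y ∈ normClasses Φ (π i) E}) := by
  have hweil' : ∀ i, ∀ φ : K i →+* ℂ, ‖φ (π i)‖ ^ 2 = (((p : ℚ) ^ a : ℚ) : ℝ) := by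
    intro i φ
    rw [hweil i φ]
    push_cast
    rfl
  exact ⟨fun ⟨s, hs, hs1⟩ => mem_of_tate p a π hweil' hπ hcross Φ hΦ m s hs x hx hs1,
    fun h => tate_of_mem p a π hint hweil' Φ m x hx h⟩

end Pool.Agent.Results.MP_950c68_ag.DominantStructure
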