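import Pool.Agent.U724C.FrobGen

/-!
# MP_950c68_ag: the Tate conjecture for self-products and the orbits of Frobenius eigenvectors

Let `H` be a Weil cohomology of varieties over an algebraically closed field, with coefficients in an
algebraically closed field `K` (for example `l`-adic cohomology with coefficients in an algebraic
closure of `ℚ_l`), `X` a variety of dimension `n` and `F = f^*` for an endomorphism `f` of `X`; for
example `f` is the Frobenius of a model of `X` over a finite field.  By the Kunneth formula and
Poincare duality the classes in `H^(2n)(X × X)` which are eigenvectors of Frobenius for `q^n` are the
linear maps on `H(X)` which commute with `F`, and the classes of the cycles on the model are the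
linear combinations of cycles which commute with `F`.  So the following is the assertion
`E^n(X × X) = A^n(X × X)`:

(T) every linear map on `H(X)` which commutes with `F` is a linear combination of cycles of
codimension `n` on `X × X`.

Let (S) be the assertion that `F` is diagonalisable on `H(X)`.  We show:

(1) if (S) holds, (T) is equivalent to the irreducibility of all eigenspaces of `F` under the cycles
commuting with `F`, and to the transitivity of these on the nonzero vectors of every eigenspace: for
`x ≠ 0` and `y` in the same eigenspace there is a linear combination `u` of cycles commuting with `F`
with `u x = y`;

(2) (T) and (S) hold if and only if for every eigenvector `x` and every generalised eigenvector `y`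
with the same eigenvalue there is such a `u` with `u x = y`;

(3) if no eigenvalue of `F` occurs in two different degrees (for the Frobenius: by the Riemann
hypothesis) and the degree of `f` is not zero, then (T) and (S) hold if and only if this is so for all
`x` and `y` in the same `H^i(X)` with `i ≤ n`.

The proof is in the modules `Pool.Agent.U724C`.  The adjoint of a correspondence with respect to
Poincare duality moves submodules of `H^(2n-i)(X)` to `H^i(X)`.
-/

set_option autoImplicit false

universe u v

namespace Pool.Agent.Results.MP_950c68_ag.EigenvectorTransitivity

open CategoryTheory Pool.Agent.H914 Pool.Agent.U724C Pool.Agent.U724C.CohSys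

/-- **Main theorem.** -/
theorem result {k : Type u} [Field k] {𝒱 : VarClass k} {ops : CycleOps 𝒱}
    (W : WeilCohomology.{u, v} ops) [IsAlgClosed W.K] (X : 𝒱.Obj) (f : X ⟶ X) :
    ((cohSys W X).Diagonalisable (pullSys W X f) →
      List.TFAE [(cohSys W X).CentraliserAlgebraic (pullSys W X f),
        (cohSys W X).EigenIrreducible (pullSys W X f),
        (cohSys W X).EigenTransitive (pullSys W X f)]) ∧
    ((cohSys W X).StrongTate (pullSys W X f) ↔ (cohSys W X).GenTransitive (pullSys W X f)) ∧
    ((cohSys W X).DistinctDegrees (pullSys W X f) → NonzeroDegree W X f →
      ((cohSys W X).StrongTate (pullSys W X f) ↔
        (cohSys W X).GenTransitiveUpTo (pullSys W X f) X.dim)) :=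
  gen_main' W X f

end Pool.Agent.Results.MP_950c68_ag.EigenvectorTransitivity
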