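import Pool.Agent.H934.PT.Main

/-!
# Parity and gaps for the spaces of Tate classes over finite fields, in all degrees

Let `X` be a smooth projective variety of dimension `n` with a divisor `D` which satisfies the hard
Lefschetz theorem and an endomorphism `f` with `f^* D = q D` (the Frobenius endomorphism of a variety
over a finite field with `q` elements), and let `2 j ≤ n`. The theorem concerns ALL cohomology theories
`W` (for example the `ℓ`-adic ones for all `ℓ ≠ p`) which satisfy the Riemann hypothesis. Put

* `t_W` = the dimension of the space of Tate classes, the elements `x` of `H^(2j)(X)` with
  `f^* x = q ^ j x`;
* `m` = the dimension of the space of generalised Tate classes; this is the multiplicity of the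
  eigenvalue `q ^ j`, that is, the order of the pole of the zeta function at `s = j`, and does not depend
  on `W`;
* `r` = the rank of the intersection form `(z, w) ↦ deg (z w D ^ (n - 2 j))` on the cycles of
  codimension `j` whose classes are Tate classes.

No conjecture is assumed. The theorem says the following.

* **Parity.** `t_W` and `m` have the same parity. In particular the parity of the dimension of the space
  of Tate classes is the same for all theories (all prime numbers `ℓ`). For a surface and `j = 1` this
  is a statement on the coranks of the `ℓ`-primary parts of the Brauer group.
* **Semisimplicity for poles of small order.** If `m ≤ 3` (no condition on cycles), or if `m ≤ r + 2`,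
  then the eigenvalue `q ^ j` of `f^*` is semisimple: all generalised Tate classes are Tate classes,
  `t_W = m`.
* **Tate classes which are not explained.** If `r < m` then `r < t_W`, hence `r < t_W` for all `W` or for
  none; if `m - r` is even and positive, there are even at least `r + 2` independent Tate classes.
* **Homological and numerical equivalence.** The space of numerically trivial combinations of algebraic
  Tate classes has a dimension of at most `(m - r) / 2`; it vanishes if `m ≤ r + 1`.

Method. The form `B (x, y) = tr (x y D ^ (n - 2 j))` is symmetric and nondegenerate on `H^(2j)(X)`, and
`u = q ^ (-j) f^*` is an isometry. It is unipotent on the space of generalised Tate classes, on which the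
form is nondegenerate (`nondeg_gen`). For a unipotent isometry the form `B (u x, y) - B (x, u y)` is
alternating and its radical is the kernel of `u - 1`, so that the codimension of this kernel is even
(`parity`). The orthogonal complement of the known algebraic classes is stable, so it contains a fixed
vector if it is not zero; the numerically trivial classes form an isotropic subspace of it. The
independence of `m` is proved by writing the projector onto the generalised Tate classes as a polynomial
with rational coefficients in `f^*`, valid for two theories at once (`finrank_gen_indep`).
-/

set_option autoImplicit false

open CategoryTheory AlgebraicGeometry Module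

universe u v

namespace Pool.Agent.Results.MP_950c68_ag.ParityAndGaps

open Pool.Agent.H914 Pool.Agent.H934.PT VarClass Obj WeilCohomology

/-- **The dimensions of the spaces of Tate classes for all cohomology theories have the parity of the
order of the pole of the zeta function; the Frobenius is semisimple on the generalised Tate classes if
this order is at most three, or at most two more than the rank of the group of cycles; and the dimension
of the space of numerically trivial classes is at most half of the defect.** -/
theorem result {k : Type u} [Field k] {𝒱 : VarClass k} {ops : CycleOps 𝒱} (X : 𝒱.Obj)
    {D : X.Cycles} (hD : X.IsCyc 1 D) (f : X ⟶ X) {q : ℕ} (hq : 1 < q) {j : ℕ}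
    (hj : 2 * j ≤ X.dim) :
    ∃ m : ℕ, ∀ W : WeilCohomology.{u, v} ops, HardLefschetz W X D →
      W.map f (W.cl X D) = (q : W.K) • W.cl X D → RiemannHypothesis W X f q →
      ParityLaw W f q j m ∧ ∀ r, FixedRankAtLeast W D f q j r → GapLaw W D f q j m r :=
  parity_gap X hD f hq hj

end Pool.Agent.Results.MP_950c68_ag.ParityAndGaps
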